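import Pool.Agent.helper94.SCT.Spec

/-!
# Row sct:BOX of the project SCT (MP_ad8ced_nt), owner helper94
-/

set_option autoImplicit false

namespace Pool.Agent.SCT

open Finset ArithmeticFunction MeasureTheory
open Pool.Agent.CH (nit eU)
open Pool.Agent.helper78.ED (wg SS)
open Pool.Agent.helper85.BVP (beta)

/-- the logarithmic derivative is bounded on the line `Re = 2` -/
private theorem BOX_two : ∃ C : ℝ, 0 < C ∧ ∀ s : ℂ, s.re = 2 → ‖logDeriv riemannZeta s‖ ≤ C := by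
  refine ⟨(∑' n, ‖LSeries.term (fun n => ((vonMangoldt n : ℝ) : ℂ)) 2 n‖) + 1,
    by positivity, fun s hs => ?_⟩
  have h1 : 1 < s.re := by rw [hs]; norm_num
  have h2 := ArithmeticFunction.LSeries_vonMangoldt_eq_deriv_riemannZeta_div h1
  have h3 : logDeriv riemannZeta s = -LSeries (fun n => ((vonMangoldt n : ℝ) : ℂ)) s := by
    rw [h2, logDeriv_apply]
    ring
  have h4 := ArithmeticFunction.LSeriesSummable_vonMangoldt h1
  have h5 : ∀ n, ‖LSeries.term (fun n => ((vonMangoldt n : ℝ) : ℂ)) s n‖ =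
      ‖LSeries.term (fun n => ((vonMangoldt n : ℝ) : ℂ)) 2 n‖ := by
    intro n
    rw [LSeries.norm_term_eq, LSeries.norm_term_eq, hs]
    norm_num
  rw [h3, norm_neg]
  unfold LSeries
  have h6 : Summable fun n => ‖LSeries.term (fun n => ((vonMangoldt n : ℝ) : ℂ)) s n‖ := h4.norm
  refine (norm_tsum_le_tsum_norm h6).trans ?_
  rw [tsum_congr h5]
  linarith

/-- differentiability of the integrand -/
private theorem BOX_diff (φ : ℝ → ℝ) (hM : Differentiable ℂ (Mt φ)) (N : ℝ) (hN : 0 < N) (t : ℝ) (s : ℂ)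
    (h1 : s + (t : ℂ) * Complex.I ≠ 1) (h2 : riemannZeta (s + (t : ℂ) * Complex.I) ≠ 0) :
    DifferentiableAt ℂ (fun s : ℂ => logDeriv riemannZeta (s + (t : ℂ) * Complex.I) * (Mt φ s * (N : ℂ) ^ s)) s := by
  have hN0 : (N : ℂ) ≠ 0 := by exact_mod_cast hN.ne'
  have hd : DifferentiableAt ℂ (logDeriv riemannZeta) (s + (t : ℂ) * Complex.I) := by
    have e1 : DifferentiableOn ℂ riemannZeta {1}ᶜ := fun z hz =>
      (differentiableAt_riemannZeta hz).differentiableWithinAt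
    have e2 := e1.deriv isOpen_compl_singleton
    have e3 : DifferentiableAt ℂ (deriv riemannZeta) (s + (t : ℂ) * Complex.I) :=
      e2.differentiableAt (isOpen_compl_singleton.mem_nhds h1)
    exact e3.div (differentiableAt_riemannZeta h1) h2
  have e4 : DifferentiableAt ℂ (fun s : ℂ => s + (t : ℂ) * Complex.I) s :=
    differentiableAt_id.add_const _
  exact (hd.comp s e4).mul ((hM s).mul (differentiableAt_id.const_cpow (Or.inl hN0)))

private theorem BOX_int_sq (A : ℝ) : Integrable (fun τ : ℝ => A / (1 + τ ^ 2)) := by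
  simp_rw [div_eq_mul_inv]
  exact integrable_inv_one_add_sq.const_mul A

/-- the tail -/
private theorem BOX_tail (F : ℝ → ℂ) (hF : Continuous F) (A B H : ℝ) (hH : 0 ≤ H)
    (hA : ∀ τ, ‖F τ‖ ≤ A / (1 + τ ^ 2)) (hB0 : 0 ≤ B) (hB : ∀ τ, H ≤ |τ| → ‖F τ‖ ≤ B / (1 + τ ^ 2)) :
    ‖∫ τ, F τ‖ ≤ ‖∫ τ in (-H)..H, F τ‖ + B * Real.pi := by
  have hFi : Integrable F :=
    (BOX_int_sq A).mono' hF.aestronglyMeasurable (Filter.Eventually.of_forall hA)
  have e1 := integral_add_compl (measurableSet_Ioc (a := -H) (b := H)) hFi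
  rw [← e1, intervalIntegral.integral_of_le (by linarith)]
  refine (norm_add_le _ _).trans (add_le_add le_rfl ?_)
  have e2 : ‖∫ τ in (Set.Ioc (-H) H)ᶜ, F τ‖ ≤ ∫ τ in (Set.Ioc (-H) H)ᶜ, B / (1 + τ ^ 2) := by
    refine norm_integral_le_of_norm_le (BOX_int_sq B).integrableOn ?_
    refine (ae_restrict_iff' measurableSet_Ioc.compl).2 (Filter.Eventually.of_forall fun τ hτ => ?_)
    apply hB
    rw [Set.mem_compl_iff, Set.mem_Ioc, not_and_or, not_lt, not_le] at hτ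
    rcases hτ with h | h
    · rw [le_abs]
      right
      linarith
    · exact h.le.trans (le_abs_self τ)
  refine e2.trans ?_
  have e3 : ∫ τ in (Set.Ioc (-H) H)ᶜ, B / (1 + τ ^ 2) ≤ ∫ τ, B / (1 + τ ^ 2) :=
    setIntegral_le_integral (BOX_int_sq B) (Filter.Eventually.of_forall fun τ => by positivity)
  refine e3.trans (le_of_eq ?_)
  simp_rw [div_eq_mul_inv]
  rw [integral_const_mul, integral_univ_inv_one_add_sq]

/-- the vertical side -/
private theorem BOX_side (G : ℝ → ℂ) (A H : ℝ) (hH : 0 ≤ H) (hA0 : 0 ≤ A)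
    (hA : ∀ τ, -H ≤ τ → τ ≤ H → ‖G τ‖ ≤ A / (1 + τ ^ 2)) :
    ‖∫ τ in (-H)..H, G τ‖ ≤ A * Real.pi := by
  have e1 : ‖∫ τ in (-H)..H, G τ‖ ≤ ∫ τ in (-H)..H, A / (1 + τ ^ 2) := by
    refine intervalIntegral.norm_integral_le_of_norm_le (by linarith) ?_ (BOX_int_sq A).intervalIntegrable
    exact Filter.Eventually.of_forall fun τ hτ => hA τ hτ.1.le hτ.2
  refine e1.trans ?_
  rw [intervalIntegral.integral_of_le (by linarith)]
  have e3 : ∫ τ in Set.Ioc (-H) H, A / (1 + τ ^ 2) ≤ ∫ τ, A / (1 + τ ^ 2) :=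
    setIntegral_le_integral (BOX_int_sq A) (Filter.Eventually.of_forall fun τ => by positivity)
  refine e3.trans (le_of_eq ?_)
  simp_rw [div_eq_mul_inv]
  rw [integral_const_mul, integral_univ_inv_one_add_sq]

/-- Cauchy's theorem on the box -/
private theorem BOX_cauchy (f : ℂ → ℂ) (σ₁ H M A : ℝ) (hH : 0 ≤ H) (hσ0 : 0 ≤ σ₁) (hσ : σ₁ ≤ 2) (hM0 : 0 ≤ M)
    (hA0 : 0 ≤ A) (hd : ∀ s : ℂ, σ₁ ≤ s.re → s.re ≤ 2 → -H ≤ s.im → s.im ≤ H → DifferentiableAt ℂ f s)
    (hM : ∀ s : ℂ, σ₁ ≤ s.re → s.re ≤ 2 → |s.im| = H → ‖f s‖ ≤ M)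
    (hA : ∀ s : ℂ, s.re = σ₁ → -H ≤ s.im → s.im ≤ H → ‖f s‖ ≤ A / (1 + s.im ^ 2)) :
    ‖∫ τ in (-H)..H, f (2 + (τ : ℂ) * Complex.I)‖ ≤ 4 * M + A * Real.pi := by
  have e := Complex.integral_boundary_rect_eq_zero_of_differentiableOn f (⟨σ₁, -H⟩ : ℂ) (⟨2, H⟩ : ℂ) (by
    intro s hs
    rw [Complex.mem_reProdIm] at hs
    simp only at hs
    rw [Set.uIcc_of_le hσ, Set.uIcc_of_le (by linarith : -H ≤ H)] at hs
    exact (hd s hs.1.1 hs.1.2 hs.2.1 hs.2.2).differentiableWithinAt)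
  simp only at e
  set I1 := ∫ x : ℝ in σ₁..2, f (x + ((-H : ℝ) : ℂ) * Complex.I) with hI1
  set I2 := ∫ x : ℝ in σ₁..2, f (x + (H : ℂ) * Complex.I) with hI2
  set I3 := ∫ y : ℝ in (-H)..H, f (((2 : ℝ) : ℂ) + y * Complex.I) with hI3
  set I4 := ∫ y : ℝ in (-H)..H, f (σ₁ + y * Complex.I) with hI4
  have e2 : (∫ τ in (-H)..H, f (2 + (τ : ℂ) * Complex.I)) = I3 := by
    rw [hI3]
    push_cast
    rfl
  have e3 : Complex.I • I3 = Complex.I • I4 + I2 - I1 := by
    linear_combination e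
  have e4 : ‖I3‖ ≤ ‖I4‖ + ‖I2‖ + ‖I1‖ := by
    have : ‖Complex.I • I3‖ = ‖I3‖ := by rw [norm_smul, Complex.norm_I, one_mul]
    rw [← this, e3]
    have : ‖Complex.I • I4‖ = ‖I4‖ := by rw [norm_smul, Complex.norm_I, one_mul]
    rw [← this]
    exact (norm_sub_le _ _).trans (add_le_add (norm_add_le _ _) le_rfl)
  have e5 : ‖I1‖ ≤ M * |2 - σ₁| := by
    rw [hI1]
    refine intervalIntegral.norm_integral_le_of_norm_le_const fun x hx => ?_
    rw [Set.uIoc_of_le hσ] at hx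
    refine hM _ ?_ ?_ ?_
    · simp; exact hx.1.le
    · simp; exact hx.2
    · simp [abs_of_nonneg hH]
  have e6 : ‖I2‖ ≤ M * |2 - σ₁| := by
    rw [hI2]
    refine intervalIntegral.norm_integral_le_of_norm_le_const fun x hx => ?_
    rw [Set.uIoc_of_le hσ] at hx
    refine hM _ ?_ ?_ ?_
    · simp; exact hx.1.le
    · simp; exact hx.2
    · simp [abs_of_nonneg hH]
  have e7 : ‖I4‖ ≤ A * Real.pi := by
    rw [hI4]
    refine BOX_side _ A H hH hA0 fun τ h1 h2 => ?_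
    have := hA ((σ₁ : ℂ) + (τ : ℂ) * Complex.I) (by simp) (by simpa using h1) (by simpa using h2)
    simpa using this
  rw [abs_of_nonneg (by linarith)] at e5 e6
  have e8 : M * (2 - σ₁) ≤ 2 * M := by nlinarith
  rw [e2]
  linarith

theorem BOX (hLDB : LDB_stmt) (hMEL : MEL_stmt) (hDEC : DEC_stmt) : BOX_stmt := by
  intro φ hφ δ hδ hδ1
  obtain ⟨hMd, hMk⟩ := hDEC φ hφ
  obtain ⟨C, hC, hL⟩ := hLDB (δ / 2) (by linarith) (by linarith)
  obtain ⟨C₂, hC₂, hL2⟩ := BOX_two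
  set k : ℕ := ⌈3 / δ⌉₊ with hk
  obtain ⟨D, hD, hDk⟩ := hMk (k + 2)
  have hkδ : 3 ≤ (k : ℝ) * δ := by
    have := Nat.le_ceil (3 / δ)
    rw [div_le_iff₀ hδ] at this
    exact this
  set K : ℝ := C₂ * D * 2 ^ k * Real.pi + 20 * C * D * 2 ^ k + 5 * C * D * Real.pi with hK
  have hKp : 0 < K := by positivity
  have hlim := (isLittleO_log_rpow_atTop (r := δ / 2) (by linarith)).bound (c := 1 / K) (by positivity)
  obtain ⟨X, hX⟩ := Filter.eventually_atTop.1 hlim
  have hlim2 := (tendsto_rpow_atTop hδ).eventually_ge_atTop 20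
  obtain ⟨Y, hY⟩ := Filter.eventually_atTop.1 hlim2
  refine ⟨max (max X Y) 3, fun N t a hN ht1 ht2 ha0 ha1 hbad => ?_⟩
  have hN3 : 3 ≤ N := (le_max_right _ _).trans hN
  have hNX : X ≤ N := (le_max_left _ _).trans ((le_max_left _ _).trans hN)
  have hNY : Y ≤ N := (le_max_right _ _).trans ((le_max_left _ _).trans hN)
  have hNp : 0 < N := by linarith
  have h20 := hY N hNY
  have hlogN : 1 ≤ Real.log N := by
    rw [Real.le_log_iff_exp_le hNp]
    linarith [Real.exp_one_lt_d9]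
  have hKlog : K * Real.log N ≤ N ^ (δ / 2) := by
    have := hX N hNX
    rw [Real.norm_eq_abs, Real.norm_eq_abs, abs_of_nonneg (Real.rpow_nonneg hNp.le _),
      abs_of_nonneg (by linarith)] at this
    calc K * Real.log N ≤ K * (1 / K * N ^ (δ / 2)) := mul_le_mul_of_nonneg_left this hKp.le
      _ = N ^ (δ / 2) := by field_simp
  set H : ℝ := N ^ δ / 2 with hH
  have hH10 : 10 ≤ H := by rw [hH]; linarith
  have hHp : 0 < H := by linarith
  have hHt : 4 * H ≤ t := by rw [hH]; linarith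
  set σ₁ : ℝ := 1 - a + δ / 2 with hσ₁
  have hσ1a : 1 / 2 ≤ σ₁ := by rw [hσ₁]; linarith
  have hσ1b : σ₁ ≤ 2 := by rw [hσ₁]; linarith
  -- the zero free region near `t`
  have hzf : ∀ τ : ℝ, |τ| ≤ H → ∀ σ : ℝ, σ₁ ≤ σ → σ ≤ 2 →
      riemannZeta ((σ : ℂ) + ((t + τ : ℝ) : ℂ) * Complex.I) ≠ 0 ∧
      ‖logDeriv riemannZeta ((σ : ℂ) + ((t + τ : ℝ) : ℂ) * Complex.I)‖ ≤ 5 * C * Real.log N := by
    intro τ hτ σ h1 h2
    have hτ2 := abs_le.1 hτ
    have hy : 10 ≤ t + τ := by linarith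
    have h3 := hL a (t + τ) ha0 ha1 hy (fun ρ hρ hρ1 => by
      by_contra hcon
      push Not at hcon
      apply hbad
      refine ⟨ρ, hρ, hρ1, ?_⟩
      have e1 : ρ.im - t = (ρ.im - (t + τ)) + τ := by ring
      rw [e1]
      refine (abs_add_le _ _).trans ?_
      have : N ^ δ = 2 * H := by rw [hH]; ring
      rw [this]
      linarith) σ h1 h2
    refine ⟨h3.1, h3.2.trans ?_⟩
    have h4 : Real.log (t + τ) ≤ 5 * Real.log N := by
      have e1 : t + τ ≤ N ^ 5 := by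
        have : N ^ 5 = N * N ^ 4 := by ring
        rw [this]
        have hp : 0 < N ^ 4 := by positivity
        nlinarith
      calc Real.log (t + τ) ≤ Real.log (N ^ 5) := Real.log_le_log (by linarith) e1
        _ = 5 * Real.log N := by rw [Real.log_pow]; norm_num
    calc C * Real.log (t + τ) ≤ C * (5 * Real.log N) := mul_le_mul_of_nonneg_left h4 hC.le
      _ = _ := by ring
  -- the bounds for the transform
  have hM1 : ∀ s : ℂ, |s.re| ≤ 2 → ‖Mt φ s‖ ≤ D / (1 + s.im ^ 2) := by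
    intro s hs
    rw [le_div_iff₀ (by positivity)]
    refine le_trans (mul_le_mul_of_nonneg_left ?_ (norm_nonneg _)) (hDk s hs)
    have h1 : |s.im| ≤ ‖s‖ := Complex.abs_im_le_norm s
    have h2 : 1 ≤ 1 + ‖s‖ := by linarith [norm_nonneg s]
    calc 1 + s.im ^ 2 = 1 + |s.im| ^ 2 := by rw [sq_abs]
      _ ≤ (1 + ‖s‖) ^ 2 := by nlinarith [abs_nonneg s.im]
      _ ≤ (1 + ‖s‖) ^ (k + 2) := pow_le_pow_right₀ h2 (by omega)
  have hM2 : ∀ s : ℂ, |s.re| ≤ 2 → H ≤ |s.im| → ‖Mt φ s‖ ≤ D / H ^ k / (1 + s.im ^ 2) := by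
    intro s hs hs2
    rw [le_div_iff₀ (by positivity), le_div_iff₀ (by positivity)]
    refine le_trans ?_ (hDk s hs)
    rw [mul_assoc]
    refine mul_le_mul_of_nonneg_left ?_ (norm_nonneg _)
    have h1 : |s.im| ≤ ‖s‖ := Complex.abs_im_le_norm s
    have h2 : 1 ≤ 1 + ‖s‖ := by linarith [norm_nonneg s]
    have h3 : 1 + s.im ^ 2 ≤ (1 + ‖s‖) ^ 2 := by
      rw [← sq_abs]
      nlinarith [abs_nonneg s.im]
    have h4 : H ^ k ≤ (1 + ‖s‖) ^ k := pow_le_pow_left₀ (by linarith) (by linarith) k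
    calc (1 + s.im ^ 2) * H ^ k ≤ (1 + ‖s‖) ^ 2 * (1 + ‖s‖) ^ k :=
          mul_le_mul h3 h4 (by positivity) (by positivity)
      _ = (1 + ‖s‖) ^ (k + 2) := by ring
  have hHk : N ^ 2 / H ^ k ≤ 2 ^ k := by
    rw [div_le_iff₀ (by positivity)]
    have e1 : 2 ^ k * H ^ k = N ^ (δ * k) := by
      rw [← mul_pow, hH, show 2 * (N ^ δ / 2) = N ^ δ by ring, ← Real.rpow_natCast, ← Real.rpow_mul hNp.le]
    rw [e1]
    calc N ^ 2 = N ^ (2 : ℝ) := by norm_num
      _ ≤ N ^ (δ * k) := Real.rpow_le_rpow_of_exponent_le (by linarith) (by nlinarith)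
  -- the integrand
  set f : ℂ → ℂ := fun s => logDeriv riemannZeta (s + (t : ℂ) * Complex.I) * (Mt φ s * (N : ℂ) ^ s) with hf
  have hnf : ∀ s, ‖f s‖ = ‖logDeriv riemannZeta (s + (t : ℂ) * Complex.I)‖ * (‖Mt φ s‖ * N ^ s.re) := by
    intro s
    rw [hf]
    simp only [norm_mul]
    rw [Complex.norm_cpow_eq_rpow_re_of_pos hNp]
  have hst : ∀ s : ℂ, s + (t : ℂ) * Complex.I = ((s.re : ℝ) : ℂ) + ((t + s.im : ℝ) : ℂ) * Complex.I := by
    intro s
    apply Complex.ext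
    · simp
    · simp [add_comm]
  have hmel := hMEL φ hφ N t (by linarith)
  have hDL : ‖DL φ N t‖ ≤ ‖∫ τ : ℝ, f (2 + (τ : ℂ) * Complex.I)‖ := by
    rw [hmel, norm_mul]
    have e1 : ‖(1 : ℂ) / (2 * (Real.pi : ℂ))‖ ≤ 1 := by
      have e0 : ‖(2 : ℂ) * (Real.pi : ℂ)‖ = 2 * Real.pi := by
        rw [norm_mul, Complex.norm_real, Real.norm_eq_abs, abs_of_pos Real.pi_pos]
        norm_num
      rw [norm_div, norm_one, e0, div_le_one (by positivity)]
      have := Real.pi_gt_three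
      linarith
    have e2 : (∫ τ : ℝ, -logDeriv riemannZeta (2 + ((t + τ : ℝ) : ℂ) * Complex.I) *
        (Mt φ (2 + (τ : ℂ) * Complex.I) * (N : ℂ) ^ (2 + (τ : ℂ) * Complex.I))) =
        -∫ τ : ℝ, f (2 + (τ : ℂ) * Complex.I) := by
      rw [← integral_neg]
      congr 1
      funext τ
      rw [hf]
      simp only
      rw [show (2 : ℂ) + ((t + τ : ℝ) : ℂ) * Complex.I = 2 + (τ : ℂ) * Complex.I + (t : ℂ) * Complex.I by
        push_cast; ring]
      ring
    rw [e2, norm_neg]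
    calc _ ≤ 1 * ‖∫ τ : ℝ, f (2 + (τ : ℂ) * Complex.I)‖ := mul_le_mul_of_nonneg_right e1 (norm_nonneg _)
      _ = _ := one_mul _
  have hcont : Continuous fun τ : ℝ => f (2 + (τ : ℂ) * Complex.I) := by
    rw [continuous_iff_continuousAt]
    intro τ
    have hre : ((2 : ℂ) + (τ : ℂ) * Complex.I + (t : ℂ) * Complex.I).re = 2 := by simp
    have e1 : DifferentiableAt ℂ f (2 + (τ : ℂ) * Complex.I) := by
      refine BOX_diff φ hMd N hNp t _ ?_ ?_
      · intro h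
        rw [h] at hre
        norm_num at hre
      · exact riemannZeta_ne_zero_of_one_le_re (by rw [hre]; norm_num)
    have e2 : ContinuousAt (fun τ : ℝ => (2 : ℂ) + (τ : ℂ) * Complex.I) τ := by fun_prop
    exact ContinuousAt.comp (f := fun τ : ℝ => (2 : ℂ) + (τ : ℂ) * Complex.I) (g := f) e1.continuousAt e2
  have htail := BOX_tail (fun τ : ℝ => f (2 + (τ : ℂ) * Complex.I)) hcont (C₂ * D * N ^ 2)
    (C₂ * D * 2 ^ k) H (by linarith) (by
      intro τ
      rw [hnf]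
      have h1 := hL2 (2 + (τ : ℂ) * Complex.I + (t : ℂ) * Complex.I) (by simp)
      have h2 := hM1 (2 + (τ : ℂ) * Complex.I) (by simp)
      have h3 : ((2 : ℂ) + (τ : ℂ) * Complex.I).im = τ := by simp
      have h4 : ((2 : ℂ) + (τ : ℂ) * Complex.I).re = 2 := by simp
      rw [h3] at h2
      rw [h4]
      calc _ ≤ C₂ * (D / (1 + τ ^ 2) * N ^ (2 : ℝ)) := by gcongr
        _ = _ := by
          rw [show (N : ℝ) ^ (2 : ℝ) = N ^ 2 by norm_num]
          ring) (by positivity) (by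
      intro τ hτ
      rw [hnf]
      have h1 := hL2 (2 + (τ : ℂ) * Complex.I + (t : ℂ) * Complex.I) (by simp)
      have h3 : ((2 : ℂ) + (τ : ℂ) * Complex.I).im = τ := by simp
      have h4 : ((2 : ℂ) + (τ : ℂ) * Complex.I).re = 2 := by simp
      have h2 := hM2 (2 + (τ : ℂ) * Complex.I) (by simp) (by rw [h3]; exact hτ)
      rw [h3] at h2
      rw [h4]
      calc _ ≤ C₂ * (D / H ^ k / (1 + τ ^ 2) * N ^ (2 : ℝ)) := by gcongr
        _ = C₂ * D * (N ^ 2 / H ^ k) / (1 + τ ^ 2) := by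
          rw [show (N : ℝ) ^ (2 : ℝ) = N ^ 2 by norm_num]
          ring
        _ ≤ _ := by gcongr)
  have hcau := BOX_cauchy f σ₁ H (5 * C * D * 2 ^ k * Real.log N) (5 * C * D * Real.log N * N ^ σ₁)
    (by linarith) (by linarith) hσ1b (by positivity) (by positivity) (by
      intro s h1 h2 h3 h4
      have h5 := hzf s.im (abs_le.2 ⟨h3, h4⟩) s.re h1 h2
      rw [← hst] at h5
      refine BOX_diff φ hMd N hNp t s ?_ h5.1
      intro h
      have := congrArg Complex.im h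
      simp at this
      linarith) (by
      intro s h1 h2 h3
      have h5 := hzf s.im h3.le s.re h1 h2
      rw [← hst] at h5
      have h6 := hM2 s (by rw [abs_of_nonneg (by linarith)]; exact h2) h3.ge
      rw [hnf]
      have h7 : N ^ s.re ≤ N ^ 2 := by
        calc N ^ s.re ≤ N ^ (2 : ℝ) := Real.rpow_le_rpow_of_exponent_le (by linarith) h2
          _ = N ^ 2 := by norm_num
      have h8 : D / H ^ k / (1 + s.im ^ 2) ≤ D / H ^ k :=
        div_le_self (by positivity) (by nlinarith [sq_nonneg s.im])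
      calc _ ≤ 5 * C * Real.log N * (D / H ^ k * N ^ 2) := by
            refine mul_le_mul h5.2 ?_ (by positivity) (by positivity)
            exact mul_le_mul (h6.trans h8) h7 (by positivity) (by positivity)
        _ = 5 * C * D * (N ^ 2 / H ^ k) * Real.log N := by ring
        _ ≤ _ := by gcongr) (by
      intro s h1 h3 h4
      have h5 := hzf s.im (abs_le.2 ⟨h3, h4⟩) s.re h1.ge (by rw [h1]; exact hσ1b)
      rw [← hst] at h5
      have h6 := hM1 s (by rw [h1, abs_of_nonneg (by linarith)]; exact hσ1b)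
      rw [hnf, h1]
      calc _ ≤ 5 * C * Real.log N * (D / (1 + s.im ^ 2) * N ^ σ₁) := by
            refine mul_le_mul h5.2 ?_ (by positivity) (by positivity)
            exact mul_le_mul_of_nonneg_right h6 (by positivity)
        _ = _ := by ring)
  have hone : 1 ≤ N ^ σ₁ := Real.one_le_rpow (by linarith) (by linarith)
  have hfin : ‖DL φ N t‖ ≤ K * Real.log N * N ^ σ₁ := by
    have hLN : 1 ≤ Real.log N * N ^ σ₁ := by nlinarith
    have hLN2 : Real.log N ≤ Real.log N * N ^ σ₁ := le_mul_of_one_le_right (by linarith) hone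
    have a1 : C₂ * D * 2 ^ k * Real.pi ≤ C₂ * D * 2 ^ k * Real.pi * (Real.log N * N ^ σ₁) :=
      le_mul_of_one_le_right (by positivity) hLN
    have a2 : 4 * (5 * C * D * 2 ^ k * Real.log N) ≤ 20 * C * D * 2 ^ k * (Real.log N * N ^ σ₁) := by
      calc _ = 20 * C * D * 2 ^ k * Real.log N := by ring
        _ ≤ _ := mul_le_mul_of_nonneg_left hLN2 (by positivity)
    calc ‖DL φ N t‖ ≤ 4 * (5 * C * D * 2 ^ k * Real.log N) + 5 * C * D * Real.log N * N ^ σ₁ * Real.pi +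
          C₂ * D * 2 ^ k * Real.pi := by linarith
      _ ≤ 20 * C * D * 2 ^ k * (Real.log N * N ^ σ₁) + 5 * C * D * Real.log N * N ^ σ₁ * Real.pi +
          C₂ * D * 2 ^ k * Real.pi * (Real.log N * N ^ σ₁) := by linarith
      _ = K * Real.log N * N ^ σ₁ := by rw [hK]; ring
  calc ‖DL φ N t‖ ≤ K * Real.log N * N ^ σ₁ := hfin
    _ ≤ N ^ (δ / 2) * N ^ σ₁ := mul_le_mul_of_nonneg_right hKlog (by positivity)
    _ = N ^ (1 - a + δ) := by
      rw [← Real.rpow_add hNp]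
      congr 1
      rw [hσ₁]
      ring

end Pool.Agent.SCT
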