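import Pool.Agent.helper94.SCT.Spec

/-!
# Row sct:FIN1 of the project SCT (MP_ad8ced_nt), owner helper94
-/

set_option autoImplicit false

namespace Pool.Agent.SCT

open Finset ArithmeticFunction MeasureTheory
open Pool.Agent.CH (nit eU)
open Pool.Agent.helper78.ED (wg SS)
open Pool.Agent.helper85.BVP (beta)

private theorem FIN1_core (C X L : ℝ) (B : ℕ) (f : ℕ → ℝ) (c : ℝ) (hC : 0 < C) (hX : 0 < X) (hL : 0 < L)
    (hB : 0 < (B : ℝ)) (hc : c ≤ 1 / 8) (hc' : c ≤ 1 / (64 * C))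
    (h1 : B * X / (4 * L ^ 2) ≤ ∑ b ∈ Icc 1 B, f b)
    (h2 : ∑ b ∈ Icc 1 B, f b ^ 2 ≤ C * B * X ^ 2 / L ^ 4) :
    c * B ≤ #((Icc 1 B).filter fun b => c * X / L ^ 2 ≤ f b) := by
  set G := (Icc 1 B).filter fun b => c * X / L ^ 2 ≤ f b with hG
  have hL2 : 0 < L ^ 2 := by positivity
  have e1 : ∑ b ∈ Icc 1 B, f b = ∑ b ∈ G, f b + ∑ b ∈ (Icc 1 B).filter (fun b => ¬ c * X / L ^ 2 ≤ f b), f b :=
    (Finset.sum_filter_add_sum_filter_not (Icc 1 B) (fun b => c * X / L ^ 2 ≤ f b) f).symm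
  have e2 : ∑ b ∈ (Icc 1 B).filter (fun b => ¬ c * X / L ^ 2 ≤ f b), f b ≤ B * X / (8 * L ^ 2) := by
    have e3 : ∑ b ∈ (Icc 1 B).filter (fun b => ¬ c * X / L ^ 2 ≤ f b), f b ≤
        ∑ b ∈ (Icc 1 B).filter (fun b => ¬ c * X / L ^ 2 ≤ f b), X / (8 * L ^ 2) := by
      refine sum_le_sum fun b hb => ?_
      have hb2 := (mem_filter.1 hb).2
      push Not at hb2
      refine hb2.le.trans ?_
      rw [div_le_div_iff₀ hL2 (by positivity)]
      have : c * X ≤ 1 / 8 * X := mul_le_mul_of_nonneg_right hc hX.le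
      nlinarith [mul_le_mul_of_nonneg_right this hL2.le]
    refine e3.trans ?_
    rw [sum_const, nsmul_eq_mul]
    have e4 : ((#((Icc 1 B).filter (fun b => ¬ c * X / L ^ 2 ≤ f b)) : ℕ) : ℝ) ≤ B := by
      have := card_filter_le (Icc 1 B) (fun b => ¬ c * X / L ^ 2 ≤ f b)
      rw [Nat.card_Icc] at this
      exact_mod_cast (this.trans (by omega))
    calc _ ≤ (B : ℝ) * (X / (8 * L ^ 2)) := mul_le_mul_of_nonneg_right e4 (by positivity)
      _ = B * X / (8 * L ^ 2) := by ring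
  have e5 : B * X / (8 * L ^ 2) ≤ ∑ b ∈ G, f b := by
    have e6 : B * X / (4 * L ^ 2) = B * X / (8 * L ^ 2) + B * X / (8 * L ^ 2) := by
      field_simp
      ring
    linarith
  have e7 : (∑ b ∈ G, f b) ^ 2 ≤ #G * ∑ b ∈ G, f b ^ 2 := sq_sum_le_card_mul_sum_sq
  have e8 : ∑ b ∈ G, f b ^ 2 ≤ C * B * X ^ 2 / L ^ 4 :=
    (sum_le_sum_of_subset_of_nonneg (filter_subset _ _) (fun i _ _ => sq_nonneg _)).trans h2
  have e9 : (B * X / (8 * L ^ 2)) ^ 2 ≤ #G * (C * B * X ^ 2 / L ^ 4) :=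
    (pow_le_pow_left₀ (by positivity) e5 2).trans
      (e7.trans (mul_le_mul_of_nonneg_left e8 (Nat.cast_nonneg _)))
  have e10 : (B : ℝ) / (64 * C) ≤ #G := by
    have e11 : (B : ℝ) / (64 * C) * (C * B * X ^ 2 / L ^ 4) = (B * X / (8 * L ^ 2)) ^ 2 := by
      field_simp
      ring
    have e12 : 0 < C * B * X ^ 2 / L ^ 4 := by positivity
    rw [← e11] at e9
    exact le_of_mul_le_mul_right e9 e12
  calc c * B ≤ 1 / (64 * C) * B := mul_le_mul_of_nonneg_right hc' hB.le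
    _ = B / (64 * C) := by ring
    _ ≤ #G := e10

theorem FIN1 (hASY : ASY_stmt) (hSEC : SEC_stmt) : FIN1_stmt := by
  intro ε hε
  obtain ⟨x₀, hx₀⟩ := hASY ε (1 / 4) hε (by norm_num)
  obtain ⟨C, x₁, hC, hx₁⟩ := hSEC
  refine ⟨min (1 / 8) (1 / (64 * C)), max (max x₀ x₁) 3, by positivity, fun x hx B hB hB2 => ?_⟩
  have hx3 : 3 ≤ x := (le_max_right _ _).trans hx
  have h0 : x₀ ≤ x := (le_max_left _ _).trans ((le_max_left _ _).trans hx)
  have h1 : x₁ ≤ x := (le_max_right _ _).trans ((le_max_left _ _).trans hx)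
  have hxr : (1 : ℝ) < x := by exact_mod_cast (by omega : 1 < x)
  have hL : 0 < Real.log x := Real.log_pos hxr
  have hBp : (0 : ℝ) < B := (Real.rpow_pos_of_pos (by linarith) _).trans_le hB
  have hhalf : (x : ℝ) ^ (1 / 2 : ℝ) ≤ B :=
    (Real.rpow_le_rpow_of_exponent_le hxr.le (by linarith)).trans hB
  have a1 := hx₀ x h0 B hB hB2
  have a2 := hx₁ x h1 B hhalf hB2
  have a3 := (abs_le.1 a1).1
  refine FIN1_core C x (Real.log x) B (fun b => (cnt x b : ℝ)) _ hC (by linarith) hL hBp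
    (min_le_left _ _) (min_le_right _ _) ?_ a2
  have a4 : ((Tot x B : ℕ) : ℝ) = ∑ b ∈ Icc 1 B, (cnt x b : ℝ) := by
    unfold Tot
    push_cast
    rfl
  rw [a4] at a3
  have a5 : (B : ℝ) * x / (2 * Real.log x ^ 2) - 1 / 4 * (B * x / Real.log x ^ 2) =
      B * x / (4 * Real.log x ^ 2) := by
    field_simp
    ring
  linarith

end Pool.Agent.SCT
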