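import Pool.Agent.helper94.SCT.Spec

/-!
# Row sct:PPW of the project SCT (MP_ad8ced_nt), owner helper94
-/

set_option autoImplicit false

namespace Pool.Agent.SCT

open Finset ArithmeticFunction MeasureTheory
open Pool.Agent.CH (nit eU)
open Pool.Agent.helper78.ED (wg SS)
open Pool.Agent.helper85.BVP (beta)

/-- the non-prime part of the sum of the von Mangoldt function -/
private theorem PPW_np (K : ℕ) (hK : 1 ≤ K) :
    ∑ n ∈ (Ioc 0 K).filter (fun n => ¬ n.Prime), (vonMangoldt n : ℝ) ≤ 2 * √(K : ℝ) * Real.log K := by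
  have h1 := Chebyshev.psi_sub_theta_le (x := (K : ℝ)) (by exact_mod_cast hK)
  rw [Chebyshev.psi_sub_theta_eq_sum_not_prime, Nat.floor_natCast] at h1
  exact h1

/-- the swapped form of `Tot` -/
private theorem PPW_tot (x B : ℕ) (hB : B ≤ x ^ 2) : (Tot x B : ℝ) =
    ∑ m ∈ Ioc x (2 * x), ∑ n ∈ Ico (8 * m ^ 2 - B) (8 * m ^ 2), if m.Prime ∧ n.Prime then (1 : ℝ) else 0 := by
  have e1 : (Tot x B : ℝ) = ∑ b ∈ Icc 1 B, ∑ m ∈ Ioc x (2 * x),
      if m.Prime ∧ (8 * m ^ 2 - b).Prime then (1 : ℝ) else 0 := by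
    unfold Tot cnt
    push_cast
    refine sum_congr rfl fun b _ => ?_
    rw [← sum_filter, sum_const, nsmul_eq_mul, mul_one]
  rw [e1, sum_comm]
  refine sum_congr rfl fun m hm => ?_
  have hm1 : x < m := (mem_Ioc.1 hm).1
  have hBm : B ≤ 8 * m ^ 2 := by
    have : x ^ 2 ≤ m ^ 2 := Nat.pow_le_pow_left hm1.le 2
    omega
  refine sum_nbij' (fun b => 8 * m ^ 2 - b) (fun n => 8 * m ^ 2 - n) ?_ ?_ ?_ ?_ ?_
  · intro b hb
    rw [mem_Icc] at hb
    rw [mem_Ico]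
    omega
  · intro n hn
    rw [mem_Ico] at hn
    rw [mem_Icc]
    omega
  · intro b hb
    rw [mem_Icc] at hb
    omega
  · intro n hn
    rw [mem_Ico] at hn
    omega
  · intro b hb
    rfl

/-- the number of the `m` for a given `n` -/
private theorem PPW_cnt (x B n : ℕ) (hx : 1 ≤ x) :
    (#((Ioc x (2 * x)).filter fun m => n < 8 * m ^ 2 ∧ 8 * m ^ 2 ≤ n + B) : ℝ) ≤ B / (16 * x) + 1 := by
  set S := (Ioc x (2 * x)).filter fun m => n < 8 * m ^ 2 ∧ 8 * m ^ 2 ≤ n + B with hS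
  have hxr : (1 : ℝ) ≤ x := by exact_mod_cast hx
  rcases S.eq_empty_or_nonempty with h | h
  · rw [h]
    simp
    positivity
  · have h0 := S.min'_mem h
    have h1 := S.max'_mem h
    set a := S.min' h with ha
    set b := S.max' h with hb
    have hsub : S ⊆ Icc a b := fun m hm => mem_Icc.2 ⟨S.min'_le m hm, S.le_max' m hm⟩
    have hab : a ≤ b := S.min'_le b h1
    have hcard : #S ≤ b + 1 - a := by
      have := card_le_card hsub
      rwa [Nat.card_Icc] at this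
    rw [hS, mem_filter, mem_Ioc] at h0 h1
    have hd : 8 * b ^ 2 < 8 * a ^ 2 + B := by omega
    have hdr : 8 * (b : ℝ) ^ 2 < 8 * (a : ℝ) ^ 2 + B := by exact_mod_cast hd
    have har : (x : ℝ) < a := by exact_mod_cast h0.1.1
    have hbr : (x : ℝ) < b := by exact_mod_cast h1.1.1
    have habr : (a : ℝ) ≤ b := by exact_mod_cast hab
    have hc : (#S : ℝ) ≤ b - a + 1 := by
      have : (#S : ℝ) ≤ ((b + 1 - a : ℕ) : ℝ) := by exact_mod_cast hcard
      rw [Nat.cast_sub (by omega)] at this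
      push_cast at this
      linarith
    have hk : (b : ℝ) - a ≤ B / (16 * x) := by
      rw [le_div_iff₀ (by positivity)]
      nlinarith
    linarith

/-- first error term -/
private theorem PPW_E1 (x B : ℕ) (hx : 3 ≤ x) :
    ∑ m ∈ (Ioc x (2 * x)).filter (fun m => ¬ m.Prime), ∑ n ∈ Ico (8 * m ^ 2 - B) (8 * m ^ 2),
      (vonMangoldt m : ℝ) * vonMangoldt n ≤
      2 * √(2 * x : ℝ) * Real.log (2 * x) * (B * Real.log (32 * (x : ℝ) ^ 2)) := by
  have hxr : (3 : ℝ) ≤ x := by exact_mod_cast hx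
  have hK : 0 ≤ Real.log (32 * (x : ℝ) ^ 2) := Real.log_nonneg (by nlinarith)
  have e1 : ∀ m ∈ (Ioc x (2 * x)).filter (fun m => ¬ m.Prime), ∑ n ∈ Ico (8 * m ^ 2 - B) (8 * m ^ 2),
      (vonMangoldt m : ℝ) * vonMangoldt n ≤ vonMangoldt m * (B * Real.log (32 * (x : ℝ) ^ 2)) := by
    intro m hm
    have hm2 := mem_Ioc.1 (mem_filter.1 hm).1
    rw [← mul_sum]
    refine mul_le_mul_of_nonneg_left ?_ vonMangoldt_nonneg
    have e2 : ∀ n ∈ Ico (8 * m ^ 2 - B) (8 * m ^ 2), (vonMangoldt n : ℝ) ≤ Real.log (32 * (x : ℝ) ^ 2) := by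
      intro n hn
      rw [mem_Ico] at hn
      refine vonMangoldt_le_log.trans ?_
      rcases Nat.eq_zero_or_pos n with h0 | h0
      · subst h0
        simpa using hK
      · refine Real.log_le_log (by exact_mod_cast h0) ?_
        have : n ≤ 32 * x ^ 2 := by
          have t : m ^ 2 ≤ (2 * x) ^ 2 := Nat.pow_le_pow_left hm2.2 2
          have t2 : (2 * x) ^ 2 = 4 * x ^ 2 := by ring
          omega
        exact_mod_cast this
    refine (sum_le_sum e2).trans ?_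
    rw [sum_const, nsmul_eq_mul, Nat.card_Ico]
    refine mul_le_mul_of_nonneg_right ?_ hK
    exact_mod_cast (by omega : 8 * m ^ 2 - (8 * m ^ 2 - B) ≤ B)
  refine (sum_le_sum e1).trans ?_
  rw [← sum_mul]
  refine mul_le_mul_of_nonneg_right ?_ (by positivity)
  have e3 := PPW_np (2 * x) (by omega)
  push_cast at e3
  refine le_trans (sum_le_sum_of_subset_of_nonneg ?_ fun _ _ _ => vonMangoldt_nonneg) e3
  intro m hm
  rw [mem_filter, mem_Ioc] at hm ⊢
  exact ⟨⟨by omega, hm.1.2⟩, hm.2⟩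

/-- second error term -/
private theorem PPW_E2 (x B : ℕ) (hx : 3 ≤ x) (hB : B ≤ x ^ 2) :
    ∑ m ∈ Ioc x (2 * x), ∑ n ∈ (Ico (8 * m ^ 2 - B) (8 * m ^ 2)).filter (fun n => ¬ n.Prime),
      (vonMangoldt m : ℝ) * vonMangoldt n ≤
      Real.log (2 * x) * (2 * √(32 * (x : ℝ) ^ 2) * Real.log (32 * (x : ℝ) ^ 2)) * (B / (16 * x) + 1) := by
  have hxr : (3 : ℝ) ≤ x := by exact_mod_cast hx
  have hL : 0 ≤ Real.log (2 * (x : ℝ)) := Real.log_nonneg (by linarith)
  have e1 : ∑ m ∈ Ioc x (2 * x), ∑ n ∈ (Ico (8 * m ^ 2 - B) (8 * m ^ 2)).filter (fun n => ¬ n.Prime),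
      (vonMangoldt m : ℝ) * vonMangoldt n ≤
      ∑ m ∈ Ioc x (2 * x), ∑ n ∈ (Ioc 0 (32 * x ^ 2)).filter (fun n => ¬ n.Prime),
        if n < 8 * m ^ 2 ∧ 8 * m ^ 2 ≤ n + B then Real.log (2 * x) * vonMangoldt n else 0 := by
    refine sum_le_sum fun m hm => ?_
    rw [mem_Ioc] at hm
    have e2 : ∑ n ∈ (Ico (8 * m ^ 2 - B) (8 * m ^ 2)).filter (fun n => ¬ n.Prime),
        (vonMangoldt m : ℝ) * vonMangoldt n ≤
        ∑ n ∈ (Ico (8 * m ^ 2 - B) (8 * m ^ 2)).filter (fun n => ¬ n.Prime),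
        if n < 8 * m ^ 2 ∧ 8 * m ^ 2 ≤ n + B then Real.log (2 * x) * vonMangoldt n else 0 := by
      refine sum_le_sum fun n hn => ?_
      rw [mem_filter, mem_Ico] at hn
      rw [if_pos ⟨hn.1.2, by omega⟩]
      refine mul_le_mul_of_nonneg_right ?_ vonMangoldt_nonneg
      refine vonMangoldt_le_log.trans (Real.log_le_log (by exact_mod_cast (by omega : 0 < m)) ?_)
      exact_mod_cast hm.2
    refine e2.trans ?_
    refine sum_le_sum_of_subset_of_nonneg ?_ ?_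
    · intro n hn
      rw [mem_filter, mem_Ico] at hn
      rw [mem_filter, mem_Ioc]
      refine ⟨⟨?_, ?_⟩, hn.2⟩
      · have t : x ^ 2 < m ^ 2 := Nat.pow_lt_pow_left hm.1 (by norm_num)
        omega
      · have t : m ^ 2 ≤ (2 * x) ^ 2 := Nat.pow_le_pow_left hm.2 2
        have t2 : (2 * x) ^ 2 = 4 * x ^ 2 := by ring
        omega
    · intro n _ _
      split_ifs
      · exact mul_nonneg hL vonMangoldt_nonneg
      · exact le_rfl
  refine e1.trans ?_
  rw [sum_comm]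
  have e3 : ∀ n ∈ (Ioc 0 (32 * x ^ 2)).filter (fun n => ¬ n.Prime),
      ∑ m ∈ Ioc x (2 * x), (if n < 8 * m ^ 2 ∧ 8 * m ^ 2 ≤ n + B then
        Real.log (2 * x) * (vonMangoldt n : ℝ) else 0) ≤
      vonMangoldt n * (Real.log (2 * x) * (B / (16 * x) + 1)) := by
    intro n _
    rw [← sum_filter, sum_const, nsmul_eq_mul]
    have := PPW_cnt x B n (by omega)
    have h3 : 0 ≤ Real.log (2 * (x : ℝ)) * (vonMangoldt n : ℝ) := mul_nonneg hL vonMangoldt_nonneg
    calc _ ≤ ((B : ℝ) / (16 * x) + 1) * (Real.log (2 * x) * vonMangoldt n) :=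
          mul_le_mul_of_nonneg_right this h3
      _ = _ := by ring
  refine (sum_le_sum e3).trans ?_
  rw [← sum_mul]
  have e4 := PPW_np (32 * x ^ 2) (by nlinarith)
  push_cast at e4
  calc _ ≤ (2 * √(32 * (x : ℝ) ^ 2) * Real.log (32 * (x : ℝ) ^ 2)) * (Real.log (2 * x) * (B / (16 * x) + 1)) :=
        mul_le_mul_of_nonneg_right e4 (by positivity)
    _ = _ := by ring

/-- lower bound for the weight of a pair -/
private theorem PPW_low (x B m n : ℕ) (hx : 3 ≤ x) (hB : B ≤ x ^ 2) (hm : m ∈ Ioc x (2 * x))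
    (hn : n ∈ Ico (8 * m ^ 2 - B) (8 * m ^ 2)) (hp : m.Prime ∧ n.Prime) :
    2 * Real.log x ^ 2 ≤ (vonMangoldt m : ℝ) * vonMangoldt n := by
  have hxr : (3 : ℝ) ≤ x := by exact_mod_cast hx
  rw [vonMangoldt_apply_prime hp.1, vonMangoldt_apply_prime hp.2]
  rw [mem_Ioc] at hm
  rw [mem_Ico] at hn
  have h1 : Real.log x ≤ Real.log m := Real.log_le_log (by linarith) (by exact_mod_cast hm.1.le)
  have h2 : 2 * Real.log x ≤ Real.log n := by
    have : Real.log ((x : ℝ) ^ 2) = 2 * Real.log x := by rw [Real.log_pow]; norm_num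
    rw [← this]
    refine Real.log_le_log (by positivity) ?_
    have t : x ^ 2 < m ^ 2 := Nat.pow_lt_pow_left hm.1 (by norm_num)
    exact_mod_cast (by omega : x ^ 2 ≤ n)
  have h3 : 0 ≤ Real.log x := Real.log_nonneg (by linarith)
  nlinarith

/-- upper bound for the weight of a pair -/
private theorem PPW_upp (x B m n : ℕ) (hx : 3 ≤ x) (hm : m ∈ Ioc x (2 * x))
    (hn : n ∈ Ico (8 * m ^ 2 - B) (8 * m ^ 2)) (hp : m.Prime ∧ n.Prime) :
    (vonMangoldt m : ℝ) * vonMangoldt n ≤ 2 * Real.log x ^ 2 * (1 + 10 / Real.log x) := by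
  have hxr : (3 : ℝ) ≤ x := by exact_mod_cast hx
  rw [vonMangoldt_apply_prime hp.1, vonMangoldt_apply_prime hp.2]
  rw [mem_Ioc] at hm
  rw [mem_Ico] at hn
  have hl2 := Real.log_two_lt_d9
  have hl2p : 0 < Real.log 2 := Real.log_pos (by norm_num)
  have h0 : 1 ≤ Real.log x := by
    rw [Real.le_log_iff_exp_le (by linarith)]
    linarith [Real.exp_one_lt_d9]
  have h1 : Real.log m ≤ Real.log x + 1 := by
    have : Real.log ((m : ℝ)) ≤ Real.log (2 * x) :=
      Real.log_le_log (by exact_mod_cast (by omega : 0 < m)) (by exact_mod_cast hm.2)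
    rw [Real.log_mul (by norm_num) (by positivity)] at this
    linarith
  have h2 : Real.log n ≤ 2 * Real.log x + 4 := by
    have : Real.log ((n : ℝ)) ≤ Real.log (32 * (x : ℝ) ^ 2) := by
      refine Real.log_le_log (by exact_mod_cast hp.2.pos) ?_
      have t : m ^ 2 ≤ (2 * x) ^ 2 := Nat.pow_le_pow_left hm.2 2
      have t2 : (2 * x) ^ 2 = 4 * x ^ 2 := by ring
      exact_mod_cast (by omega : n ≤ 32 * x ^ 2)
    rw [Real.log_mul (by norm_num) (by positivity), Real.log_pow,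
      show (32 : ℝ) = 2 ^ 5 by norm_num, Real.log_pow] at this
    push_cast at this
    linarith
  have h3 : 0 ≤ Real.log m := Real.log_natCast_nonneg m
  have h4 : 2 * Real.log x ^ 2 * (1 + 10 / Real.log x) = 2 * Real.log x ^ 2 + 20 * Real.log x := by
    field_simp
    ring
  rw [h4]
  calc Real.log m * Real.log n ≤ (Real.log x + 1) * (2 * Real.log x + 4) :=
        mul_le_mul h1 h2 (Real.log_natCast_nonneg n) (by linarith)
    _ ≤ _ := by nlinarith

/-- the error terms are small -/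
private theorem PPW_small : ∃ x₀ : ℕ, 3 ≤ x₀ ∧ ∀ x : ℕ, x₀ ≤ x → ∀ B : ℕ, (x : ℝ) ^ (2 / 3 : ℝ) ≤ B →
    2 * √(2 * x : ℝ) * Real.log (2 * x) * (B * Real.log (32 * (x : ℝ) ^ 2)) +
      Real.log (2 * x) * (2 * √(32 * (x : ℝ) ^ 2) * Real.log (32 * (x : ℝ) ^ 2)) * (B / (16 * x) + 1) ≤
      B * (x : ℝ) ^ (9 / 10 : ℝ) := by
  have hlim := (isLittleO_log_rpow_atTop (r := 1 / 20) (by norm_num)).bound (c := 1 / 10) (by norm_num)
  obtain ⟨X, hX⟩ := Filter.eventually_atTop.1 hlim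
  refine ⟨max 100 ⌈X⌉₊, by omega, fun x hx B hB => ?_⟩
  have hx100 : 100 ≤ x := (le_max_left _ _).trans hx
  have hxr : (100 : ℝ) ≤ x := by exact_mod_cast hx100
  have hxX : X ≤ (x : ℝ) := (Nat.le_ceil X).trans (by exact_mod_cast (le_max_right _ _).trans hx)
  have hxp : (0 : ℝ) < x := by linarith
  have h1 := hX x hxX
  rw [Real.norm_eq_abs, Real.norm_eq_abs, abs_of_nonneg (Real.rpow_nonneg hxp.le _)] at h1
  set L := Real.log (x : ℝ) with hL
  have hL4 : 4 ≤ L := by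
    rw [hL, Real.le_log_iff_exp_le hxp]
    have e1 : Real.exp 4 = Real.exp 1 ^ 4 := by rw [← Real.exp_nat_mul]; norm_num
    rw [e1]
    have e2 := Real.exp_one_lt_d9
    have e3 : Real.exp 1 ^ 4 ≤ 2.7182818286 ^ 4 := pow_le_pow_left₀ (Real.exp_pos 1).le e2.le 4
    norm_num at e3
    linarith
  rw [abs_of_nonneg (by linarith)] at h1
  have h2 : L ^ 2 ≤ 1 / 100 * (x : ℝ) ^ (1 / 10 : ℝ) := by
    have e1 : ((x : ℝ) ^ (1 / 20 : ℝ)) ^ 2 = (x : ℝ) ^ (1 / 10 : ℝ) := by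
      rw [← Real.rpow_natCast, ← Real.rpow_mul hxp.le]
      norm_num
    rw [← e1]
    have : L ^ 2 ≤ (1 / 10 * (x : ℝ) ^ (1 / 20 : ℝ)) ^ 2 := pow_le_pow_left₀ (by linarith) h1 2
    linarith
  have hl2 := Real.log_two_lt_d9
  have hl2p : 0 < Real.log 2 := Real.log_pos (by norm_num)
  have h3 : Real.log (2 * (x : ℝ)) ≤ 2 * L := by
    rw [Real.log_mul (by norm_num) (by positivity)]
    linarith
  have h30 : 0 ≤ Real.log (2 * (x : ℝ)) := Real.log_nonneg (by linarith)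
  have h4 : Real.log (32 * (x : ℝ) ^ 2) ≤ 3 * L := by
    rw [Real.log_mul (by norm_num) (by positivity), Real.log_pow,
      show (32 : ℝ) = 2 ^ 5 by norm_num, Real.log_pow]
    push_cast
    linarith
  have h40 : 0 ≤ Real.log (32 * (x : ℝ) ^ 2) := Real.log_nonneg (by nlinarith)
  have h5 : √(32 * (x : ℝ) ^ 2) ≤ 6 * x := by
    rw [Real.sqrt_le_left (by positivity)]
    nlinarith
  have h6 : √(2 * (x : ℝ)) ≤ 3 / 2 * (x : ℝ) ^ (1 / 2 : ℝ) := by
    rw [← Real.sqrt_eq_rpow, Real.sqrt_mul (by norm_num)]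
    refine mul_le_mul_of_nonneg_right ?_ (Real.sqrt_nonneg _)
    rw [Real.sqrt_le_left (by norm_num)]
    norm_num
  have hB0 : (0 : ℝ) ≤ B := Nat.cast_nonneg B
  have hLL : 0 ≤ L ^ 2 := by positivity
  set T := (x : ℝ) ^ (1 / 10 : ℝ) with hT
  have hTp : 0 < T := Real.rpow_pos_of_pos hxp _
  have t1 : 2 * √(2 * x : ℝ) * Real.log (2 * x) * (B * Real.log (32 * (x : ℝ) ^ 2)) ≤
      18 / 100 * (B * (x : ℝ) ^ (9 / 10 : ℝ)) := by
    calc 2 * √(2 * x : ℝ) * Real.log (2 * x) * (B * Real.log (32 * (x : ℝ) ^ 2)) ≤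
          2 * (3 / 2 * (x : ℝ) ^ (1 / 2 : ℝ)) * (2 * L) * (B * (3 * L)) := by gcongr
      _ = 18 * (x : ℝ) ^ (1 / 2 : ℝ) * B * L ^ 2 := by ring
      _ ≤ 18 * (x : ℝ) ^ (1 / 2 : ℝ) * B * (1 / 100 * T) := by gcongr
      _ = 18 / 100 * (B * ((x : ℝ) ^ (1 / 2 : ℝ) * T)) := by ring
      _ ≤ 18 / 100 * (B * (x : ℝ) ^ (9 / 10 : ℝ)) := by
          have : (x : ℝ) ^ (1 / 2 : ℝ) * T ≤ (x : ℝ) ^ (9 / 10 : ℝ) := by
            rw [hT, ← Real.rpow_add hxp]
            exact Real.rpow_le_rpow_of_exponent_le (by linarith) (by norm_num)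
          gcongr
  have t2 : Real.log (2 * x) * (2 * √(32 * (x : ℝ) ^ 2) * Real.log (32 * (x : ℝ) ^ 2)) * (B / (16 * x) + 1) ≤
      77 / 100 * (B * (x : ℝ) ^ (9 / 10 : ℝ)) := by
    have u1 : Real.log (2 * x) * (2 * √(32 * (x : ℝ) ^ 2) * Real.log (32 * (x : ℝ) ^ 2)) * (B / (16 * x) + 1) ≤
        2 * L * (2 * (6 * x) * (3 * L)) * (B / (16 * x) + 1) := by gcongr
    have u2 : 2 * L * (2 * (6 * x) * (3 * L)) * (B / (16 * x) + 1) = L ^ 2 * (9 / 2 * B + 72 * x) := by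
      field_simp
      ring
    have u3 : L ^ 2 * (9 / 2 * B + 72 * x) ≤ 1 / 100 * T * (9 / 2 * B + 72 * x) := by gcongr
    have u4 : T ≤ (x : ℝ) ^ (9 / 10 : ℝ) := Real.rpow_le_rpow_of_exponent_le (by linarith) (by norm_num)
    have u5 : T * x ≤ B * (x : ℝ) ^ (9 / 10 : ℝ) := by
      have v1 : T * x = (x : ℝ) ^ (2 / 3 : ℝ) * (x : ℝ) ^ (13 / 30 : ℝ) := by
        rw [hT, ← Real.rpow_add hxp]
        nth_rewrite 2 [← Real.rpow_one (x : ℝ)]
        rw [← Real.rpow_add hxp]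
        norm_num
      rw [v1]
      have v2 : (x : ℝ) ^ (13 / 30 : ℝ) ≤ (x : ℝ) ^ (9 / 10 : ℝ) :=
        Real.rpow_le_rpow_of_exponent_le (by linarith) (by norm_num)
      exact mul_le_mul hB v2 (Real.rpow_nonneg hxp.le _) hB0
    have u6 : T * B ≤ B * (x : ℝ) ^ (9 / 10 : ℝ) := by
      rw [mul_comm]
      exact mul_le_mul_of_nonneg_left u4 hB0
    calc _ ≤ _ := u1
      _ = _ := u2
      _ ≤ _ := u3
      _ = 9 / 200 * (T * B) + 72 / 100 * (T * x) := by ring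
      _ ≤ 9 / 200 * (B * (x : ℝ) ^ (9 / 10 : ℝ)) + 72 / 100 * (B * (x : ℝ) ^ (9 / 10 : ℝ)) := by gcongr
      _ ≤ _ := by
          have : 0 ≤ (B : ℝ) * (x : ℝ) ^ (9 / 10 : ℝ) := mul_nonneg hB0 (Real.rpow_nonneg hxp.le _)
          linarith
  have : 0 ≤ (B : ℝ) * (x : ℝ) ^ (9 / 10 : ℝ) := mul_nonneg hB0 (Real.rpow_nonneg hxp.le _)
  linarith

theorem PPW : PPW_stmt := by
  obtain ⟨x₀, hx₀, hsm⟩ := PPW_small
  refine ⟨x₀, fun x hx B hB hB2 => ?_⟩
  have hx3 : 3 ≤ x := hx₀.trans hx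
  have hT := PPW_tot x B hB2
  constructor
  · rw [hT, mul_sum]
    unfold WT
    refine sum_le_sum fun m hm => ?_
    rw [mul_sum]
    refine sum_le_sum fun n hn => ?_
    split_ifs with hp
    · rw [mul_one]
      exact PPW_low x B m n hx3 hB2 hm hn hp
    · rw [mul_zero]
      exact mul_nonneg vonMangoldt_nonneg vonMangoldt_nonneg
  · have key : WT x B ≤ 2 * Real.log x ^ 2 * (1 + 10 / Real.log x) * Tot x B +
        (∑ m ∈ (Ioc x (2 * x)).filter (fun m => ¬ m.Prime), ∑ n ∈ Ico (8 * m ^ 2 - B) (8 * m ^ 2),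
          (vonMangoldt m : ℝ) * vonMangoldt n +
        ∑ m ∈ Ioc x (2 * x), ∑ n ∈ (Ico (8 * m ^ 2 - B) (8 * m ^ 2)).filter (fun n => ¬ n.Prime),
          (vonMangoldt m : ℝ) * vonMangoldt n) := by
      rw [hT, mul_sum, sum_filter, ← sum_add_distrib, ← sum_add_distrib]
      unfold WT
      refine sum_le_sum fun m hm => ?_
      have c0 : ∀ n, (0 : ℝ) ≤ vonMangoldt m * vonMangoldt n :=
        fun n => mul_nonneg vonMangoldt_nonneg vonMangoldt_nonneg
      by_cases hmp : m.Prime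
      · rw [if_neg (not_not.2 hmp), zero_add, mul_sum, sum_filter, ← sum_add_distrib]
        refine sum_le_sum fun n hn => ?_
        by_cases hnp : n.Prime
        · rw [if_pos ⟨hmp, hnp⟩, if_neg (not_not.2 hnp), add_zero, mul_one]
          exact PPW_upp x B m n hx3 hm hn ⟨hmp, hnp⟩
        · rw [if_neg (fun h => hnp h.2), if_pos hnp, mul_zero, zero_add]
      · rw [if_pos hmp]
        have a1 : 0 ≤ ∑ n ∈ (Ico (8 * m ^ 2 - B) (8 * m ^ 2)).filter (fun n => ¬ n.Prime),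
          (vonMangoldt m : ℝ) * vonMangoldt n := sum_nonneg fun n _ => c0 n
        have hlog : 0 ≤ Real.log (x : ℝ) := Real.log_natCast_nonneg x
        have a2 : 0 ≤ 2 * Real.log x ^ 2 * (1 + 10 / Real.log x) *
            ∑ n ∈ Ico (8 * m ^ 2 - B) (8 * m ^ 2), if m.Prime ∧ n.Prime then (1 : ℝ) else 0 := by
          refine mul_nonneg (by positivity) (sum_nonneg fun n _ => ?_)
          split_ifs <;> norm_num
        linarith
    have e1 := PPW_E1 x B hx3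
    have e2 := PPW_E2 x B hx3 hB2
    have e3 := hsm x hx B hB
    linarith

end Pool.Agent.SCT
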